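import Mathlib
import Pool.Agent.Helper78.LK.Goals

/-!
# Project LK (MP_5a63b6_lc), packet UNT
-/

set_option autoImplicit false

namespace Pool.Agent.Helper46.LK

open Pool.Agent.Helper50.KP Pool.Agent.Helper78.LK

theorem gUNT (hTQ : TQ) (hCUV : CUV) (hXRC : XRC) (hPWR : PWR) (hKNT : KNT) : UNT := by
  intro k
  obtain ⟨t1, t2, t3, -⟩ := hTQ
  have hdia : IsDia (w0 k) := (hKNT k).2.1.1
  have hP := hPWR (2 * k) (4 * k)
  set P : Word := List.replicate (4 * k) (.X true, 1) ++ List.replicate (2 * k) (.X true, 0) ++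
    List.replicate (2 * k) (.X false, 2) ++ List.replicate (4 * k) (.X false, 1) with hPdef
  set F : Word := (List.replicate (2 * k) (xW (4 * k))).flatten with hF
  have e0 : w0 k = cups ++ P ++ ([(.X false, 1)] ++ [(.cap, 0), (.cap, 0)]) := by
    unfold w0
    rw [List.replicate_succ' (n := 4 * k), hPdef]
    unfold cups
    simp only [List.append_assoc]
  refine t3 (w0 k) hdia ?_
  have hs0 : (str (w0 k) 0).isSome := by
    rw [show str (w0 k) 0 = some 0 from hdia]
    rfl
  have s1 : Teq 0 (w0 k) (cups ++ F ++ ([(.X false, 1)] ++ [(.cap, 0), (.cap, 0)])) := by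
    rw [e0]
    refine t2 0 4 cups _ P F rfl ?_ hP
    rw [← e0]
    exact hs0
  have hs1 : (str (cups ++ F ++ ([(.X false, 1)] ++ [(.cap, 0), (.cap, 0)])) 0).isSome := by
    rw [← (t1 0 _ _ s1).2]
    exact hs0
  have s2 : Teq 0 (cups ++ F ++ ([(.X false, 1)] ++ [(.cap, 0), (.cap, 0)]))
      (cups ++ ([(.X false, 1)] ++ [(.cap, 0), (.cap, 0)])) := by
    have := t2 0 0 [] ([(.X false, 1)] ++ [(.cap, 0), (.cap, 0)]) (cups ++ F) cups rfl
      (by rw [List.nil_append]; exact hs1) (hXRC.2.2 (2 * k) (4 * k))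
    simpa only [List.nil_append] using this
  have s3 : Teq 0 (cups ++ ([(.X false, 1)] ++ [(.cap, 0), (.cap, 0)])) circle := by
    have := hCUV.2.2
    rwa [List.append_assoc] at this
  exact (s1.trans s2).trans s3

end Pool.Agent.Helper46.LK
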